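import Mathlib

/-!
# Milnor-Wood inequality for groups acting on a linearly ordered set with a shift

`X` a linear order, `T : X ≃o X` with `x < T x` and cofinal powers.  For order automorphisms which commute with `T`
a product of `g ≥ 1` commutators which is equal to `T ^ n` has `|n| ≤ 2 g - 2`; in the extremal case `n = 2 g - 2`,
`g ≥ 2`, none of the entries `f` is a pure translation-like map `T ^ k x < f x < T ^ (k+1) x`.
-/

set_option autoImplicit false

namespace Pool.Agent.helper68.MW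

variable {X : Type*} [LinearOrder X]

/-- a fixed point free shift with cofinal powers -/
structure IsShift (T : X ≃o X) : Prop where
  lt : ∀ x, x < T x
  cof : ∀ x y, ∃ n : ℕ, y ≤ (T ^ n) x

theorem IsShift.strictMono_zpow {T : X ≃o X} (hT : IsShift T) (x : X) :
    StrictMono fun k : ℤ => (T ^ k) x := by
  refine strictMono_int_of_lt_succ fun k => ?_
  show (T ^ k) x < (T ^ (k + 1)) x
  rw [zpow_add_one, RelIso.mul_apply]
  exact (T ^ k).strictMono (hT.lt x)

theorem IsShift.lt_iff {T : X ≃o X} (hT : IsShift T) {x : X} {j k : ℤ} :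
    (T ^ j) x < (T ^ k) x ↔ j < k := (hT.strictMono_zpow x).lt_iff_lt

theorem IsShift.le_iff {T : X ≃o X} (hT : IsShift T) {x : X} {j k : ℤ} :
    (T ^ j) x ≤ (T ^ k) x ↔ j ≤ k := (hT.strictMono_zpow x).le_iff_le

/-- position of `y` relative to the orbit of `x` -/
theorem IsShift.exists_between {T : X ≃o X} (hT : IsShift T) (x y : X) :
    ∃ j : ℤ, (T ^ j) x ≤ y ∧ y < (T ^ (j + 1)) x := by
  obtain ⟨n, hn⟩ := hT.cof x y
  obtain ⟨m, hm⟩ := hT.cof y x
  have hb : ∃ b : ℤ, ∀ z : ℤ, (T ^ z) x ≤ y → z ≤ b := by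
    refine ⟨n, fun z hz => ?_⟩
    have h1 : (T ^ z) x ≤ (T ^ (n : ℤ)) x := by
      rw [zpow_natCast]
      exact hz.trans hn
    exact hT.le_iff.1 h1
  have hi : ∃ z : ℤ, (T ^ z) x ≤ y := by
    refine ⟨-(m : ℤ), ?_⟩
    have h2 : (T ^ (-(m : ℤ))) x ≤ (T ^ (-(m : ℤ))) ((T ^ m) y) := (T ^ (-(m : ℤ))).monotone hm
    have h3 : (T ^ (-(m : ℤ))) ((T ^ m) y) = y := by
      rw [← RelIso.mul_apply, zpow_neg, zpow_natCast, inv_mul_cancel, RelIso.one_apply]
    rwa [h3] at h2
  obtain ⟨j, hj, hj'⟩ := Int.exists_greatest_of_bdd hb hi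
  refine ⟨j, hj, ?_⟩
  by_contra hc
  rw [not_lt] at hc
  have := hj' (j + 1) hc
  omega

/-- commuting with the shift, pointwise form -/
theorem comm_apply {T f : X ≃o X} (hf : Commute f T) (k : ℤ) (x : X) :
    f ((T ^ k) x) = (T ^ k) (f x) := by
  have h := hf.zpow_right k
  rw [← RelIso.mul_apply, h.eq, RelIso.mul_apply]

theorem zpow_add_apply (T : X ≃o X) (j k : ℤ) (x : X) : (T ^ j) ((T ^ k) x) = (T ^ (j + k)) x := by
  rw [← RelIso.mul_apply, ← zpow_add]

/-- a bound at one point gives a bound at all points, weaker by one -/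
theorem all_of_ex {T f : X ≃o X} (hT : IsShift T) (hf : Commute f T) {k : ℤ} {x : X}
    (h : f x < (T ^ k) x) (y : X) : f y < (T ^ (k + 1)) y := by
  obtain ⟨j, hj, hj'⟩ := hT.exists_between x y
  calc f y < f ((T ^ (j + 1)) x) := f.strictMono hj'
    _ = (T ^ (j + 1)) (f x) := comm_apply hf _ _
    _ < (T ^ (j + 1)) ((T ^ k) x) := (T ^ (j + 1)).strictMono h
    _ = (T ^ (k + 1)) ((T ^ j) x) := by
      rw [zpow_add_apply, zpow_add_apply]
      congr 2
      ring
    _ ≤ (T ^ (k + 1)) y := (T ^ (k + 1)).monotone hj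

theorem exists_all {T f : X ≃o X} (hT : IsShift T) (hf : Commute f T) (x : X) :
    ∃ k : ℕ, ∀ y, f y < (T ^ (k : ℤ)) y := by
  obtain ⟨n, hn⟩ := hT.cof x (f x)
  have h1 : f x < (T ^ ((n : ℤ) + 1)) x := by
    refine lt_of_le_of_lt hn ?_
    rw [← zpow_natCast]
    exact hT.lt_iff.2 (by omega)
  refine ⟨n + 2, fun y => ?_⟩
  have h2 := all_of_ex hT hf h1 y
  have h3 : (((n + 2 : ℕ) : ℤ)) = (n : ℤ) + 1 + 1 := by push_cast; ring
  rw [h3]
  exact h2

theorem pow_mono {u v : X ≃o X} (h : ∀ y, v y ≤ u y) (n : ℕ) (y : X) : (v ^ n) y ≤ (u ^ n) y := by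
  induction n generalizing y with
  | zero => simp
  | succ n ih =>
    rw [pow_succ', pow_succ', RelIso.mul_apply, RelIso.mul_apply]
    exact (v.monotone (ih y)).trans (h _)

open scoped commutatorElement

/-- a commutator moves some point by less than one shift -/
theorem commutator_lt {T f g : X ≃o X} [Nonempty X] (hT : IsShift T) (hf : Commute f T) (hg : Commute g T) :
    ∃ x, ⁅f, g⁆ x < T x := by
  by_contra hc
  push Not at hc
  have h1 : ∀ y, (T * g) y ≤ (f * g * f⁻¹) y := by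
    intro y
    have h2 := hc (g y)
    rw [commutatorElement_def] at h2
    have h3 : (f * g * f⁻¹ * g⁻¹) (g y) = (f * g * f⁻¹) y := by
      rw [← RelIso.mul_apply, mul_assoc (f * g * f⁻¹), inv_mul_cancel, mul_one]
    rwa [h3] at h2
  obtain ⟨y0⟩ := ‹Nonempty X›
  obtain ⟨k', hk'⟩ := exists_all hT hf y0
  obtain ⟨k, hk⟩ := hT.cof y0 (f⁻¹ y0)
  have h4 := pow_mono h1 (k + k') y0
  have e1 : (T * g) ^ (k + k') = T ^ (k + k') * g ^ (k + k') := hg.symm.mul_pow _
  have e2 : (f * g * f⁻¹) ^ (k + k') = f * g ^ (k + k') * f⁻¹ := by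
    rw [conj_pow]
  rw [e1, e2, RelIso.mul_apply, RelIso.mul_apply, RelIso.mul_apply] at h4
  set N := k + k' with hN
  have h5 : (g ^ N) (f⁻¹ y0) ≤ (T ^ (k : ℤ)) ((g ^ N) y0) := by
    have h6 : (g ^ N) (f⁻¹ y0) ≤ (g ^ N) ((T ^ (k : ℤ)) y0) := by
      refine (g ^ N).monotone ?_
      rw [zpow_natCast]
      exact hk
    rwa [comm_apply (hg.pow_left N)] at h6
  have h7 : f ((g ^ N) (f⁻¹ y0)) < (T ^ ((k : ℤ) + k')) ((g ^ N) y0) := by
    calc f ((g ^ N) (f⁻¹ y0)) ≤ f ((T ^ (k : ℤ)) ((g ^ N) y0)) := f.monotone h5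
      _ = (T ^ (k : ℤ)) (f ((g ^ N) y0)) := comm_apply hf _ _
      _ < (T ^ (k : ℤ)) ((T ^ (k' : ℤ)) ((g ^ N) y0)) := (T ^ (k : ℤ)).strictMono (hk' _)
      _ = (T ^ ((k : ℤ) + k')) ((g ^ N) y0) := zpow_add_apply _ _ _ _
  have h8 : (T ^ ((N : ℕ) : ℤ)) ((g ^ N) y0) < (T ^ ((k : ℤ) + k')) ((g ^ N) y0) := by
    rw [zpow_natCast]
    exact lt_of_le_of_lt h4 h7
  have h9 := hT.lt_iff.1 h8
  rw [hN] at h9
  push_cast at h9
  omega

/-- product of the commutators of a list of pairs -/
def prodComm {G : Type*} [Group G] (L : List (G × G)) : G := (L.map fun p => ⁅p.1, p.2⁆).prod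

@[simp] theorem prodComm_nil {G : Type*} [Group G] : prodComm ([] : List (G × G)) = 1 := rfl

theorem prodComm_cons {G : Type*} [Group G] (p : G × G) (L : List (G × G)) :
    prodComm (p :: L) = ⁅p.1, p.2⁆ * prodComm L := by simp [prodComm]

theorem prodComm_append {G : Type*} [Group G] (L L' : List (G × G)) :
    prodComm (L ++ L') = prodComm L * prodComm L' := by simp [prodComm]

theorem prodComm_inv {G : Type*} [Group G] (L : List (G × G)) :
    (prodComm L)⁻¹ = prodComm (L.reverse.map Prod.swap) := by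
  induction L with
  | nil => simp [prodComm]
  | cons p L ih =>
    rw [prodComm_cons, mul_inv_rev, ih, commutatorElement_inv, List.reverse_cons, List.map_append,
      prodComm_append]
    simp [prodComm]

/-- every entry of the list commutes with `T` -/
def AllComm (T : X ≃o X) (L : List ((X ≃o X) × (X ≃o X))) : Prop :=
  ∀ p ∈ L, Commute p.1 T ∧ Commute p.2 T

theorem Commute_commutator {T f g : X ≃o X} (hf : Commute f T) (hg : Commute g T) :
    Commute ⁅f, g⁆ T := by
  rw [commutatorElement_def]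
  exact ((hf.mul_left hg).mul_left hf.inv_left).mul_left hg.inv_left

theorem commute_prodComm {T : X ≃o X} {L : List ((X ≃o X) × (X ≃o X))} (hL : AllComm T L) :
    Commute (prodComm L) T := by
  induction L with
  | nil => simp
  | cons p L ih =>
    rw [prodComm_cons]
    have h1 := hL p (by simp)
    exact (Commute_commutator h1.1 h1.2).mul_left (ih fun q hq => hL q (by simp [hq]))

theorem prodComm_lt {T : X ≃o X} [Nonempty X] (hT : IsShift T) (L : List ((X ≃o X) × (X ≃o X)))
    (hL : AllComm T L) (hne : L ≠ []) :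
    ∃ x, prodComm L x < (T ^ (2 * (L.length : ℤ) - 1)) x := by
  induction L with
  | nil => exact absurd rfl hne
  | cons p L ih =>
    have h1 := hL p (by simp)
    have hL' : AllComm T L := fun q hq => hL q (by simp [hq])
    obtain ⟨z, hz⟩ := commutator_lt hT h1.1 h1.2
    by_cases hL0 : L = []
    · subst hL0
      refine ⟨z, ?_⟩
      rw [prodComm_cons, prodComm_nil, mul_one]
      simpa using hz
    · obtain ⟨w, hw⟩ := ih hL' hL0
      have h2 := all_of_ex hT (commute_prodComm hL') hw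
      refine ⟨(prodComm L)⁻¹ z, ?_⟩
      set x := (prodComm L)⁻¹ z with hx
      have hx' : prodComm L x = z := by
        rw [hx, ← RelIso.mul_apply, mul_inv_cancel, RelIso.one_apply]
      rw [prodComm_cons, RelIso.mul_apply, hx']
      calc ⁅p.1, p.2⁆ z < T z := hz
        _ = (T ^ (1 : ℤ)) (prodComm L x) := by rw [hx', zpow_one]
        _ < (T ^ (1 : ℤ)) ((T ^ (2 * (L.length : ℤ) - 1 + 1)) x) := (T ^ (1 : ℤ)).strictMono (h2 x)
        _ = (T ^ (2 * ((p :: L).length : ℤ) - 1)) x := by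
          rw [zpow_add_apply]
          congr 2
          rw [List.length_cons]
          push_cast
          ring

/-- **Milnor-Wood**, upper bound -/
theorem milnorWood_le {T : X ≃o X} [Nonempty X] (hT : IsShift T) (L : List ((X ≃o X) × (X ≃o X)))
    (hL : AllComm T L) (hne : L ≠ []) {n : ℤ} (h : prodComm L = T ^ n) :
    n ≤ 2 * (L.length : ℤ) - 2 := by
  obtain ⟨x, hx⟩ := prodComm_lt hT L hL hne
  rw [h] at hx
  have := hT.lt_iff.1 hx
  omega

/-- **Milnor-Wood** -/
theorem milnorWood {T : X ≃o X} [Nonempty X] (hT : IsShift T) (L : List ((X ≃o X) × (X ≃o X)))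
    (hL : AllComm T L) (hne : L ≠ []) {n : ℤ} (h : prodComm L = T ^ n) :
    |n| ≤ 2 * (L.length : ℤ) - 2 := by
  rw [abs_le]
  refine ⟨?_, milnorWood_le hT L hL hne h⟩
  have h1 : prodComm (L.reverse.map Prod.swap) = T ^ (-n) := by
    rw [← prodComm_inv, h, zpow_neg]
  have h2 : AllComm T (L.reverse.map Prod.swap) := by
    intro q hq
    obtain ⟨p, hp, rfl⟩ := List.mem_map.1 hq
    have := hL p (List.mem_reverse.1 hp)
    exact ⟨this.2, this.1⟩
  have h3 := milnorWood_le hT _ h2 (by simpa using hne) h1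
  rw [List.length_map, List.length_reverse] at h3
  omega

end Pool.Agent.helper68.MW
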