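import Pool.Agent.helper68.MW.Order

/-!
# The extremal case of the Milnor-Wood inequality

`Cross T f k`: the displacement of `f` takes values on both sides of `T ^ k` (over `ℝ`: `f x = T ^ k x` has a solution).
-/

set_option autoImplicit false

namespace Pool.Agent.helper68.MW

open scoped commutatorElement

variable {X : Type*} [LinearOrder X]

/-- `f` and `T ^ k` cross: over `ℝ`, `T ^ (-k) * f` has a fixed point -/
def Cross (T f : X ≃o X) (k : ℤ) : Prop := (∃ x, f x ≤ (T ^ k) x) ∧ ∃ x, (T ^ k) x ≤ f x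

theorem zpow_mul_apply (T f : X ≃o X) (k : ℤ) (x : X) : (T ^ k * f) x = (T ^ k) (f x) :=
  RelIso.mul_apply _ _ _

/-- weak version of `all_of_ex` -/
theorem all_of_ex_le {T f : X ≃o X} (hT : IsShift T) (hf : Commute f T) {k : ℤ} {x : X}
    (h : f x ≤ (T ^ k) x) (y : X) : f y < (T ^ (k + 1)) y := by
  obtain ⟨j, hj, hj'⟩ := hT.exists_between x y
  calc f y < f ((T ^ (j + 1)) x) := f.strictMono hj'
    _ = (T ^ (j + 1)) (f x) := comm_apply hf _ _
    _ ≤ (T ^ (j + 1)) ((T ^ k) x) := (T ^ (j + 1)).monotone h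
    _ = (T ^ (k + 1)) ((T ^ j) x) := by
      rw [zpow_add_apply, zpow_add_apply]
      congr 2
      ring
    _ ≤ (T ^ (k + 1)) y := (T ^ (k + 1)).monotone hj

theorem all_of_ex_ge {T f : X ≃o X} (hT : IsShift T) (hf : Commute f T) {k : ℤ} {x : X}
    (h : (T ^ k) x ≤ f x) (y : X) : (T ^ (k - 1)) y < f y := by
  obtain ⟨j, hj, hj'⟩ := hT.exists_between x y
  calc (T ^ (k - 1)) y < (T ^ (k - 1)) ((T ^ (j + 1)) x) := (T ^ (k - 1)).strictMono hj'
    _ = (T ^ j) ((T ^ k) x) := by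
      rw [zpow_add_apply, zpow_add_apply]
      congr 2
      ring
    _ ≤ (T ^ j) (f x) := (T ^ j).monotone h
    _ = f ((T ^ j) x) := (comm_apply hf _ _).symm
    _ ≤ f y := f.monotone hj

theorem Cross.lt {T f : X ≃o X} {k : ℤ} (h : Cross T f k) (hT : IsShift T) (hf : Commute f T) (y : X) :
    f y < (T ^ (k + 1)) y := by
  obtain ⟨⟨x, hx⟩, -⟩ := h
  exact all_of_ex_le hT hf hx y

theorem Cross.gt {T f : X ≃o X} {k : ℤ} (h : Cross T f k) (hT : IsShift T) (hf : Commute f T) (y : X) :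
    (T ^ (k - 1)) y < f y := by
  obtain ⟨-, ⟨x, hx⟩⟩ := h
  exact all_of_ex_ge hT hf hx y

/-- the level is unique -/
theorem Cross.unique {T f : X ≃o X} {k l : ℤ} (hT : IsShift T) (hf : Commute f T) (h : Cross T f k)
    (h' : Cross T f l) : k = l := by
  obtain ⟨x, hx⟩ := h.2
  obtain ⟨y, hy⟩ := h'.2
  have h1 := hT.lt_iff.1 (lt_of_le_of_lt hx (h'.lt hT hf x))
  have h2 := hT.lt_iff.1 (lt_of_le_of_lt hy (h.lt hT hf y))
  omega

theorem Cross.conj {T f g : X ≃o X} {k : ℤ} (hg : Commute g T) (h : Cross T f k) :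
    Cross T (g * f * g⁻¹) k := by
  obtain ⟨⟨x, hx⟩, ⟨y, hy⟩⟩ := h
  have e : ∀ z, (g * f * g⁻¹) (g z) = g (f z) := by
    intro z
    rw [← RelIso.mul_apply, mul_assoc (g * f), inv_mul_cancel, mul_one, RelIso.mul_apply]
  refine ⟨⟨g x, ?_⟩, ⟨g y, ?_⟩⟩
  · rw [e, ← comm_apply hg]
    exact g.monotone hx
  · rw [e, ← comm_apply hg]
    exact g.monotone hy

theorem Cross.inv {T f : X ≃o X} {k : ℤ} (hf : Commute f T) (h : Cross T f k) :
    Cross T f⁻¹ (-k) := by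
  obtain ⟨⟨x, hx⟩, ⟨y, hy⟩⟩ := h
  have key : ∀ z, f⁻¹ (f z) = z := fun z => by
    rw [← RelIso.mul_apply, inv_mul_cancel, RelIso.one_apply]
  have e : ∀ z, (T ^ (-k)) ((T ^ k) z) = z := fun z => by
    rw [zpow_add_apply, neg_add_cancel, zpow_zero, RelIso.one_apply]
  refine ⟨⟨f y, ?_⟩, ⟨f x, ?_⟩⟩
  · rw [key]
    have := (T ^ (-k)).monotone hy
    rwa [e] at this
  · rw [key]
    have := (T ^ (-k)).monotone hx
    rwa [e] at this

theorem Cross.mul_zpow {T f : X ≃o X} {k : ℤ} (h : Cross T f k) (j : ℤ) :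
    Cross T (T ^ j * f) (j + k) := by
  obtain ⟨⟨x, hx⟩, ⟨y, hy⟩⟩ := h
  refine ⟨⟨x, ?_⟩, ⟨y, ?_⟩⟩
  · rw [RelIso.mul_apply, ← zpow_add_apply]
    exact (T ^ j).monotone hx
  · rw [RelIso.mul_apply, ← zpow_add_apply]
    exact (T ^ j).monotone hy

/-- either crossing, or strictly between two consecutive powers of `T` -/
theorem cross_or_between {T f : X ≃o X} [Nonempty X] (hT : IsShift T) (hf : Commute f T) :
    (∃ k, Cross T f k) ∨ ∃ k : ℤ, ∀ x, (T ^ k) x < f x ∧ f x < (T ^ (k + 1)) x := by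
  obtain ⟨x0⟩ := ‹Nonempty X›
  obtain ⟨n, hn⟩ := exists_all hT hf x0
  obtain ⟨m, hm⟩ := exists_all hT hf.inv_left x0
  have hb : ∃ b : ℤ, ∀ z : ℤ, (∃ x, (T ^ z) x ≤ f x) → z ≤ b := by
    refine ⟨n, ?_⟩
    rintro z ⟨x, hx⟩
    exact (hT.lt_iff.1 (lt_of_le_of_lt hx (hn x))).le
  have hi : ∃ z : ℤ, ∃ x, (T ^ z) x ≤ f x := by
    refine ⟨-m, x0, ?_⟩
    have h1 := (hm (f x0)).le
    have h2 : f⁻¹ (f x0) = x0 := by
      rw [← RelIso.mul_apply, inv_mul_cancel, RelIso.one_apply]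
    rw [h2] at h1
    have h3 := (T ^ (-(m : ℤ))).monotone h1
    rwa [zpow_add_apply, neg_add_cancel, zpow_zero, RelIso.one_apply] at h3
  obtain ⟨k, ⟨x, hx⟩, hk⟩ := Int.exists_greatest_of_bdd hb hi
  by_cases hc : ∃ y, f y ≤ (T ^ k) y
  · exact Or.inl ⟨k, hc, x, hx⟩
  · right
    push Not at hc
    refine ⟨k, fun y => ⟨hc y, ?_⟩⟩
    by_contra h
    rw [not_lt] at h
    have := hk (k + 1) ⟨y, h⟩
    omega

/-- a commutator with an entry strictly between two consecutive powers of `T` moves every point by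
less than one shift -/
theorem commutator_all_lt_left {T f g : X ≃o X} (hg : Commute g T) {k : ℤ}
    (h : ∀ x, (T ^ k) x < f x ∧ f x < (T ^ (k + 1)) x) (x : X) : ⁅f, g⁆ x < (T ^ (1 : ℤ)) x := by
  have h1 : f⁻¹ (g⁻¹ x) < (T ^ (-k)) (g⁻¹ x) := by
    have h2 := (h (f⁻¹ (g⁻¹ x))).1
    have h3 : f (f⁻¹ (g⁻¹ x)) = g⁻¹ x := by
      rw [← RelIso.mul_apply, mul_inv_cancel, RelIso.one_apply]
    rw [h3] at h2
    have h4 := (T ^ (-k)).strictMono h2
    rwa [zpow_add_apply, neg_add_cancel, zpow_zero, RelIso.one_apply] at h4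
  have e : ⁅f, g⁆ x = f (g (f⁻¹ (g⁻¹ x))) := by
    rw [commutatorElement_def, RelIso.mul_apply, RelIso.mul_apply, RelIso.mul_apply]
  have h5 : g (g⁻¹ x) = x := by rw [← RelIso.mul_apply, mul_inv_cancel, RelIso.one_apply]
  calc ⁅f, g⁆ x = f (g (f⁻¹ (g⁻¹ x))) := e
    _ < (T ^ (k + 1)) (g (f⁻¹ (g⁻¹ x))) := (h _).2
    _ < (T ^ (k + 1)) (g ((T ^ (-k)) (g⁻¹ x))) := (T ^ (k + 1)).strictMono (g.strictMono h1)
    _ = (T ^ (1 : ℤ)) x := by
      rw [comm_apply hg, h5, zpow_add_apply]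
      congr 2
      ring

theorem commutator_all_lt_right {T f g : X ≃o X} (hf : Commute f T) {k : ℤ}
    (h : ∀ x, (T ^ k) x < g x ∧ g x < (T ^ (k + 1)) x) (x : X) : ⁅f, g⁆ x < (T ^ (1 : ℤ)) x := by
  have h1 : g⁻¹ x < (T ^ (-k)) x := by
    have h2 := (h (g⁻¹ x)).1
    have h3 : g (g⁻¹ x) = x := by
      rw [← RelIso.mul_apply, mul_inv_cancel, RelIso.one_apply]
    rw [h3] at h2
    have h4 := (T ^ (-k)).strictMono h2
    rwa [zpow_add_apply, neg_add_cancel, zpow_zero, RelIso.one_apply] at h4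
  have e : ⁅f, g⁆ x = f (g (f⁻¹ (g⁻¹ x))) := by
    rw [commutatorElement_def, RelIso.mul_apply, RelIso.mul_apply, RelIso.mul_apply]
  have h5 : ∀ z, f (f⁻¹ z) = z := fun z => by rw [← RelIso.mul_apply, mul_inv_cancel, RelIso.one_apply]
  calc ⁅f, g⁆ x = f (g (f⁻¹ (g⁻¹ x))) := e
    _ < f ((T ^ (k + 1)) (f⁻¹ (g⁻¹ x))) := f.strictMono (h _).2
    _ = (T ^ (k + 1)) (g⁻¹ x) := by rw [comm_apply hf, h5]
    _ < (T ^ (k + 1)) ((T ^ (-k)) x) := (T ^ (k + 1)).strictMono h1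
    _ = (T ^ (1 : ℤ)) x := by
      rw [zpow_add_apply]
      congr 2
      ring

/-- cyclic rotation of a list whose product of commutators is a power of `T` -/
theorem prodComm_rotate {T : X ≃o X} {L₁ L₂ : List ((X ≃o X) × (X ≃o X))} {n : ℤ}
    (h₁ : AllComm T L₁) (h : prodComm (L₁ ++ L₂) = T ^ n) : prodComm (L₂ ++ L₁) = T ^ n := by
  rw [prodComm_append] at h ⊢
  have hc : Commute (prodComm L₁) (T ^ n) := (commute_prodComm h₁).zpow_right n
  have h2 : prodComm L₂ = (prodComm L₁)⁻¹ * T ^ n := by rw [← h]; group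
  rw [h2, mul_assoc, ← hc.eq]
  group

/-- **extremal case**: no entry is strictly between consecutive powers of `T` -/
theorem extremal_aux {T : X ≃o X} [Nonempty X] (hT : IsShift T) {L₁ L₂ : List ((X ≃o X) × (X ≃o X))}
    {p : (X ≃o X) × (X ≃o X)} (hL : AllComm T (L₁ ++ p :: L₂)) (hlen : 2 ≤ (L₁ ++ p :: L₂).length)
    {n : ℤ} (h : prodComm (L₁ ++ p :: L₂) = T ^ n) (hp : ∀ x, ⁅p.1, p.2⁆ x < (T ^ (1 : ℤ)) x) :
    n < 2 * ((L₁ ++ p :: L₂).length : ℤ) - 2 := by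
  have hL1 : AllComm T L₁ := fun q hq => hL q (by simp [hq])
  have hL2 : AllComm T L₂ := fun q hq => hL q (by simp [hq])
  have h1 : prodComm (p :: (L₂ ++ L₁)) = T ^ n := by
    have := prodComm_rotate hL1 h
    simpa using this
  have hne : L₂ ++ L₁ ≠ [] := by
    intro h0
    rw [List.append_eq_nil_iff] at h0
    rw [h0.1, h0.2] at hlen
    simp at hlen
  have hL' : AllComm T (L₂ ++ L₁) := by
    intro q hq
    rcases List.mem_append.1 hq with hq | hq
    · exact hL2 q hq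
    · exact hL1 q hq
  obtain ⟨x, hx⟩ := prodComm_lt hT (L₂ ++ L₁) hL' hne
  have h2 : (T ^ n) x < (T ^ (2 * (((L₂ ++ L₁).length : ℕ) : ℤ))) x := by
    rw [← h1, prodComm_cons, RelIso.mul_apply]
    calc ⁅p.1, p.2⁆ (prodComm (L₂ ++ L₁) x) < (T ^ (1 : ℤ)) (prodComm (L₂ ++ L₁) x) := hp _
      _ < (T ^ (1 : ℤ)) ((T ^ (2 * (((L₂ ++ L₁).length : ℕ) : ℤ) - 1)) x) := (T ^ (1 : ℤ)).strictMono hx
      _ = _ := by
        rw [zpow_add_apply]
        congr 2
        ring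
  have h3 := hT.lt_iff.1 h2
  rw [List.length_append] at h3
  rw [List.length_append, List.length_cons]
  push_cast at h3 ⊢
  omega

theorem extremal_fst {T : X ≃o X} [Nonempty X] (hT : IsShift T) {L₁ L₂ : List ((X ≃o X) × (X ≃o X))}
    {p : (X ≃o X) × (X ≃o X)} (hL : AllComm T (L₁ ++ p :: L₂)) (hlen : 2 ≤ (L₁ ++ p :: L₂).length)
    (h : prodComm (L₁ ++ p :: L₂) = T ^ (2 * ((L₁ ++ p :: L₂).length : ℤ) - 2)) :
    ∃ k, Cross T p.1 k := by
  have hp := hL p (by simp)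
  rcases cross_or_between hT hp.1 with h1 | ⟨k, hk⟩
  · exact h1
  · exact absurd (extremal_aux hT hL hlen h (commutator_all_lt_left hp.2 hk)) (lt_irrefl _)

theorem extremal_snd {T : X ≃o X} [Nonempty X] (hT : IsShift T) {L₁ L₂ : List ((X ≃o X) × (X ≃o X))}
    {p : (X ≃o X) × (X ≃o X)} (hL : AllComm T (L₁ ++ p :: L₂)) (hlen : 2 ≤ (L₁ ++ p :: L₂).length)
    (h : prodComm (L₁ ++ p :: L₂) = T ^ (2 * ((L₁ ++ p :: L₂).length : ℤ) - 2)) :
    ∃ k, Cross T p.2 k := by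
  have hp := hL p (by simp)
  rcases cross_or_between hT hp.2 with h1 | ⟨k, hk⟩
  · exact h1
  · exact absurd (extremal_aux hT hL hlen h (commutator_all_lt_right hp.1 hk)) (lt_irrefl _)

/-- **extremal case, separating curves**: a partial product of `h` commutators has level `2 h - 1` -/
theorem extremal_sep {T : X ≃o X} [Nonempty X] (hT : IsShift T) {L₁ L₂ : List ((X ≃o X) × (X ≃o X))}
    (h₁ : AllComm T L₁) (h₂ : AllComm T L₂) (hne₁ : L₁ ≠ []) (hne₂ : L₂ ≠ [])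
    (h : prodComm (L₁ ++ L₂) = T ^ (2 * ((L₁ ++ L₂).length : ℤ) - 2)) :
    Cross T (prodComm L₁) (2 * (L₁.length : ℤ) - 1) := by
  obtain ⟨x, hx⟩ := prodComm_lt hT L₁ h₁ hne₁
  obtain ⟨y, hy⟩ := prodComm_lt hT L₂ h₂ hne₂
  refine ⟨⟨x, hx.le⟩, ⟨prodComm L₂ y, ?_⟩⟩
  rw [prodComm_append] at h
  have h3 : prodComm L₁ (prodComm L₂ y) = (T ^ (2 * ((L₁ ++ L₂).length : ℤ) - 2)) y := by
    rw [← RelIso.mul_apply, h]
  rw [h3]
  have h4 := ((T ^ (2 * (L₁.length : ℤ) - 1)).strictMono hy).le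
  refine h4.trans (le_of_eq ?_)
  rw [zpow_add_apply, List.length_append]
  congr 2
  push_cast
  ring

/-- **pants**: canonical lifts of the boundary curves multiply to `T ^ j` with `|j| ≤ 1` -/
theorem pants_le {T f g h : X ≃o X} (hT : IsShift T) (hf : Commute f T) (hg : Commute g T)
    {a b c j : ℤ} (cf : Cross T f a) (cg : Cross T g b) (ch : Cross T h c) (he : f * g * h = T ^ j) :
    j ≤ a + b + c + 1 := by
  obtain ⟨x, hx⟩ := ch.1
  have h1 : (T ^ j) x < (T ^ (a + 1 + (b + 1) + c)) x := by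
    rw [← he, RelIso.mul_apply, RelIso.mul_apply]
    calc f (g (h x)) ≤ f (g ((T ^ c) x)) := f.monotone (g.monotone hx)
      _ = (T ^ c) (f (g x)) := by rw [comm_apply hg, comm_apply hf]
      _ < (T ^ c) ((T ^ (a + 1)) (g x)) := (T ^ c).strictMono (cf.lt hT hf _)
      _ < (T ^ c) ((T ^ (a + 1)) ((T ^ (b + 1)) x)) :=
        (T ^ c).strictMono ((T ^ (a + 1)).strictMono (cg.lt hT hg _))
      _ = _ := by
        rw [zpow_add_apply, zpow_add_apply]
        congr 2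
        ring
  have h2 := hT.lt_iff.1 h1
  omega

theorem pants_ge {T f g h : X ≃o X} (hT : IsShift T) (hf : Commute f T) (hg : Commute g T)
    {a b c j : ℤ} (cf : Cross T f a) (cg : Cross T g b) (ch : Cross T h c) (he : f * g * h = T ^ j) :
    a + b + c - 1 ≤ j := by
  obtain ⟨x, hx⟩ := ch.2
  have h1 : (T ^ (a - 1 + (b - 1) + c)) x < (T ^ j) x := by
    rw [← he, RelIso.mul_apply, RelIso.mul_apply]
    calc (T ^ (a - 1 + (b - 1) + c)) x = (T ^ c) ((T ^ (a - 1)) ((T ^ (b - 1)) x)) := by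
          rw [zpow_add_apply, zpow_add_apply]
          congr 2
          ring
      _ < (T ^ c) ((T ^ (a - 1)) (g x)) :=
        (T ^ c).strictMono ((T ^ (a - 1)).strictMono (cg.gt hT hg _))
      _ < (T ^ c) (f (g x)) := (T ^ c).strictMono (cf.gt hT hf _)
      _ = f (g ((T ^ c) x)) := by rw [comm_apply hg, comm_apply hf]
      _ ≤ f (g (h x)) := f.monotone (g.monotone hx)
  have h2 := hT.lt_iff.1 h1
  omega

end Pool.Agent.helper68.MW
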